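import Pool.Agent.Helper8_FL.B2

/-!
# B1: the randomised branch of a tree
-/

open MeasureTheory Set

namespace Pool.Agent.FL.H8

/-! ### The choice of an element of a finite set -/

theorem pick_mem {A : Finset ℕ} {r : ℕ} (h : r < A.card) : pick A r ∈ A := by
  unfold pick
  have h1 : r < (A.sort (· ≤ ·)).length := by rwa [Finset.length_sort]
  rw [List.getD_eq_getElem _ _ h1, ← Finset.mem_sort (s := A) (· ≤ ·)]
  exact List.getElem_mem h1

theorem pick_inj {A : Finset ℕ} {r s : ℕ} (hr : r < A.card) (hs : s < A.card) :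
    pick A r = pick A s ↔ r = s := by
  unfold pick
  have h1 : r < (A.sort (· ≤ ·)).length := by rwa [Finset.length_sort]
  have h2 : s < (A.sort (· ≤ ·)).length := by rwa [Finset.length_sort]
  rw [List.getD_eq_getElem _ _ h1, List.getD_eq_getElem _ _ h2]
  exact List.Nodup.getElem_inj_iff (Finset.sort_nodup A (· ≤ ·))

theorem exists_pick {A : Finset ℕ} {b : ℕ} (hb : b ∈ A) : ∃ r < A.card, pick A r = b := by
  rw [← Finset.mem_sort (s := A) (· ≤ ·)] at hb
  obtain ⟨r, h1, h2⟩ := List.getElem_of_mem hb
  refine ⟨r, by rwa [Finset.length_sort] at h1, ?_⟩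
  unfold pick
  rw [List.getD_eq_getElem _ _ h1, h2]

theorem idx_lt {L a r : ℕ} (ha : 0 < a) (hr : r < L) : r * a / L < a := by
  rw [Nat.div_lt_iff_lt_mul (by omega), mul_comm a L]
  exact Nat.mul_lt_mul_of_pos_right hr ha

/-- Every element of `A` is chosen with the same probability. -/
theorem unifM_pick {L : ℕ} (hL : 0 < L) {A : Finset ℕ} (hA : A.card ∣ L) {b : ℕ} (hb : b ∈ A) :
    unifM L {r : Fin L | pick A (r.val * A.card / L) = b} = (A.card : ENNReal)⁻¹ := by
  classical
  have ha : 0 < A.card := Finset.card_pos.2 ⟨b, hb⟩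
  obtain ⟨c, hc⟩ := hA
  have hc0 : 0 < c := by
    rcases Nat.eq_zero_or_pos c with h | h
    · subst h; omega
    · exact h
  obtain ⟨k, hk, rfl⟩ := exists_pick hb
  have h1 : {r : Fin L | pick A (r.val * A.card / L) = pick A k} =
      ((Finset.univ.filter (fun r : Fin L => r.val / c = k) : Finset (Fin L)) : Set (Fin L)) := by
    ext r
    simp only [Set.mem_ofPred_eq, Finset.coe_filter, Finset.mem_univ, true_and]
    rw [pick_inj (idx_lt ha r.isLt) hk]
    have h0 : ∀ x M : ℕ, M = A.card * c → x * A.card / M = x / c := by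
      rintro x _ rfl
      rw [mul_comm x]
      exact Nat.mul_div_mul_left _ _ ha
    rw [h0 _ _ hc]
  have h2 : (Finset.univ.filter (fun r : Fin L => r.val / c = k)).card = c := by
    have h3 : (Finset.univ.filter (fun r : Fin L => r.val / c = k)).map Fin.valEmbedding =
        Finset.Ico (k * c) (k * c + c) := by
      ext x
      simp only [Finset.mem_map, Finset.mem_filter, Finset.mem_univ, true_and,
        Fin.valEmbedding_apply, Finset.mem_Ico]
      constructor
      · rintro ⟨r, hr, rfl⟩
        rw [Nat.div_eq_iff hc0] at hr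
        omega
      · intro hx
        have hxL : x < L := by
          rw [hc]
          calc x < k * c + c := hx.2
            _ = (k + 1) * c := by ring
            _ ≤ A.card * c := Nat.mul_le_mul_right _ hk
        refine ⟨⟨x, hxL⟩, ?_, rfl⟩
        rw [Nat.div_eq_iff hc0]
        simp only
        omega
    have h4 := congrArg Finset.card h3
    rw [Finset.card_map, Nat.card_Ico] at h4
    omega
  rw [h1]
  unfold unifM
  rw [Measure.smul_apply, Measure.count_apply_finset, h2, smul_eq_mul, hc]
  push_cast
  rw [ENNReal.mul_inv (Or.inr (by simp)) (Or.inr (by exact_mod_cast hc0.ne')), mul_assoc,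
    ENNReal.inv_mul_cancel (by exact_mod_cast hc0.ne') (by simp), mul_one]

/-! ### The nodes of the branch -/

theorem length_phiN (T : Set Node) (w : Rd) (m : ℕ) : (phiN T w m).length = m := by
  induction m with
  | zero => rfl
  | succ m ih => simp [phiN, ih]

theorem card_suc_le (T : Set Node) (σ : Node) : (suc T σ).card ≤ sz σ.length := by
  classical
  unfold suc
  exact (Finset.card_filter_le _ _).trans (by simp)

theorem card_suc_pos {T : Set Node} (hT : Good T) {σ : Node} (h : σ ∈ T) : 0 < (suc T σ).card :=
  Finset.card_pos.2 (hT.ext σ h)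

theorem card_suc_dvd {T : Set Node} (hT : Good T) {σ : Node} (h : σ ∈ T) :
    (suc T σ).card ∣ Lz σ.length :=
  Nat.dvd_factorial (card_suc_pos hT h) (card_suc_le T σ)

theorem phiN_mem {T : Set Node} (hT : Good T) (w : Rd) (m : ℕ) : phiN T w m ∈ T := by
  induction m with
  | zero => exact hT.nil
  | succ m ih =>
    have h1 : pick (suc T (phiN T w m)) ((w m).val * (suc T (phiN T w m)).card / Lz m) ∈
        suc T (phiN T w m) := pick_mem (idx_lt (card_suc_pos hT ih) (w m).isLt)
    exact (mem_suc.1 h1).2

theorem phi_val {T : Set Node} (hT : Good T) (w : Rd) (m : ℕ) : (phi T w m).val =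
    pick (suc T (phiN T w m)) ((w m).val * (suc T (phiN T w m)).card / Lz m) := by
  have h1 : pick (suc T (phiN T w m)) ((w m).val * (suc T (phiN T w m)).card / Lz m) ∈
      suc T (phiN T w m) := pick_mem (idx_lt (card_suc_pos hT (phiN_mem hT w m)) (w m).isLt)
  have h2 := (mem_suc.1 h1).1
  rw [length_phiN] at h2
  exact Nat.mod_eq_of_lt h2

theorem pre_phi {T : Set Node} (hT : Good T) (w : Rd) (m : ℕ) : pre (phi T w) m = phiN T w m := by
  induction m with
  | zero => rfl
  | succ m ih => rw [pre_succ, ih, phi_val hT]; rfl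

theorem phi_mem {T : Set Node} (hT : Good T) (w : Rd) : phi T w ∈ body T := by
  intro m
  rw [pre_phi hT]
  exact phiN_mem hT w m

theorem phiN_congr {T : Set Node} {w w' : Rd} {m : ℕ} (h : ∀ i < m, w i = w' i) :
    phiN T w m = phiN T w' m := by
  induction m with
  | zero => rfl
  | succ m ih =>
    have h1 := ih fun i hi => h i (by omega)
    have h2 := h m (by omega)
    simp only [phiN, h1, h2]

/-! ### Measurability -/

theorem measurableSet_phiN (m : ℕ) (σ : Node) :
    MeasurableSet {x : Set Node × Rd | phiN x.1 x.2 m = σ} := by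
  induction m generalizing σ with
  | zero =>
    by_cases h : ([] : Node) = σ
    · simp [phiN, h]
    · simp [phiN, h]
  | succ m ih =>
    have : {x : Set Node × Rd | phiN x.1 x.2 (m + 1) = σ} =
        ⋃ τ : Node, ⋃ A : Finset ℕ, ⋃ r : Fin (Lz m),
          {x : Set Node × Rd | phiN x.1 x.2 m = τ} ∩ {x : Set Node × Rd | suc x.1 τ = A} ∩
          {x : Set Node × Rd | x.2 m = r} ∩
          {_x : Set Node × Rd | τ ++ [pick A (r.val * A.card / Lz m)] = σ} := by
      ext x
      simp only [Set.mem_ofPred_eq, Set.mem_iUnion, Set.mem_inter_iff, phiN]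
      constructor
      · intro h
        exact ⟨_, _, _, ⟨⟨rfl, rfl⟩, rfl⟩, h⟩
      · rintro ⟨τ, A, r, ⟨⟨rfl, rfl⟩, rfl⟩, h⟩
        exact h
    rw [this]
    refine MeasurableSet.iUnion fun τ => MeasurableSet.iUnion fun A => MeasurableSet.iUnion fun r =>
      (((ih τ).inter ((measurableSet_suc_eq τ A).preimage measurable_fst)).inter ?_).inter
        (MeasurableSet.const _)
    have h2 : Measurable (fun x : Set Node × Rd => x.2 m) :=
      (measurable_pi_apply m).comp measurable_snd
    exact h2 (MeasurableSet.singleton r)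

theorem measurable_phi : Measurable (fun x : Set Node × Rd => phi x.1 x.2) := by
  refine measurable_pi_iff.2 fun m => ?_
  refine measurable_to_countable' fun b => ?_
  have : (fun x : Set Node × Rd => phi x.1 x.2 m) ⁻¹' {b} =
      ⋃ τ : Node, ⋃ A : Finset ℕ, ⋃ r : Fin (Lz m),
        {x : Set Node × Rd | phiN x.1 x.2 m = τ} ∩ {x : Set Node × Rd | suc x.1 τ = A} ∩
        {x : Set Node × Rd | x.2 m = r} ∩
        {_x : Set Node × Rd | pick A (r.val * A.card / Lz m) % sz m = b.val} := by
    ext x
    simp only [Set.mem_ofPred_eq, Set.mem_iUnion, Set.mem_inter_iff, Set.mem_preimage,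
      Set.mem_singleton_iff, phi, Fin.ext_iff]
    constructor
    · intro h
      exact ⟨_, _, x.2 m, ⟨⟨rfl, rfl⟩, rfl⟩, h⟩
    · rintro ⟨τ, A, r, ⟨⟨rfl, rfl⟩, hr⟩, h⟩
      rwa [hr]
  rw [this]
  refine MeasurableSet.iUnion fun τ => MeasurableSet.iUnion fun A => MeasurableSet.iUnion fun r =>
    (((measurableSet_phiN m τ).inter ((measurableSet_suc_eq τ A).preimage measurable_fst)).inter
      ?_).inter (MeasurableSet.const _)
  have h2 : Measurable (fun x : Set Node × Rd => x.2 m) :=
    (measurable_pi_apply m).comp measurable_snd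
  exact h2 (MeasurableSet.singleton r)

/-! ### Probability of passing through a node -/

theorem phiN_eq_take {T : Set Node} {σ : Node} (w : Rd) (n : ℕ) (hn : n ≤ σ.length) :
    phiN T w n = σ.take n ↔ ∀ i < n,
      pick (suc T (σ.take i)) ((w i).val * (suc T (σ.take i)).card / Lz i) = σ.getD i 0 := by
  induction n with
  | zero => simp [phiN]
  | succ n ih =>
    have h1 : n < σ.length := by omega
    have h2 : σ.take (n + 1) = σ.take n ++ [σ.getD n 0] := by
      rw [List.take_succ_eq_append_getElem h1, List.getD_eq_getElem _ _ h1]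
    rw [h2]
    constructor
    · intro h
      have h3 : phiN T w n = σ.take n ∧
          [pick (suc T (phiN T w n)) ((w n).val * (suc T (phiN T w n)).card / Lz n)] =
            [σ.getD n 0] := by
        apply List.append_inj h
        rw [length_phiN, List.length_take]
        omega
      intro i hi
      rcases Nat.lt_succ_iff_lt_or_eq.1 hi with h4 | h4
      · exact (ih (by omega)).1 h3.1 i h4
      · subst h4
        have h5 := h3.2
        rw [h3.1] at h5
        simpa using h5
    · intro h
      have h3 := (ih (by omega)).2 fun i hi => h i (by omega)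
      have h4 := h n (by omega)
      change phiN T w n ++ [pick (suc T (phiN T w n))
        ((w n).val * (suc T (phiN T w n)).card / Lz n)] = _
      rw [h3, h4]

theorem mU_pre {T : Set Node} (hT : Good T) {σ : Node} (hσ : σ ∈ T) :
    mU {w | pre (phi T w) σ.length = σ} =
      ∏ i ∈ Finset.range σ.length, ((suc T (σ.take i)).card : ENNReal)⁻¹ := by
  have h1 : {w : Rd | pre (phi T w) σ.length = σ} =
      Set.pi (Finset.range σ.length : Finset ℕ) (fun i => {r : Fin (Lz i) |
        pick (suc T (σ.take i)) (r.val * (suc T (σ.take i)).card / Lz i) = σ.getD i 0}) := by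
    ext w
    have h2 := phiN_eq_take (T := T) w σ.length le_rfl
    rw [List.take_length] at h2
    simp only [Set.mem_ofPred_eq, Set.mem_pi, Finset.coe_range, Set.mem_Iio]
    rw [pre_phi hT, h2]
  rw [h1]
  unfold mU
  rw [Measure.infinitePi_pi _ (fun i _ => MeasurableSet.of_discrete)]
  refine Finset.prod_congr rfl fun i hi => ?_
  have hi' : i < σ.length := Finset.mem_range.1 hi
  have hmem : σ.take i ∈ T := hT.mem_of_isPrefix (List.take_prefix _ _) hσ
  have hlen : (σ.take i).length = i := by rw [List.length_take]; omega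
  apply unifM_pick (Lz_pos i)
  · have := card_suc_dvd hT hmem
    rwa [hlen] at this
  · rw [hT.mem_suc]
    have h3 : σ.take i ++ [σ.getD i 0] = σ.take (i + 1) := by
      rw [List.take_succ_eq_append_getElem hi', List.getD_eq_getElem _ _ hi']
    rw [h3]
    exact hT.mem_of_isPrefix (List.take_prefix _ _) hσ

theorem phi_stmt : PhiStmt :=
  ⟨fun _ hT w m => pre_phi hT w m, fun _ hT w => phi_mem hT w,
    fun _ hT w w' m h => by rw [pre_phi hT, pre_phi hT]; exact phiN_congr h,
    measurable_phi, fun _ hT _ hσ => mU_pre hT hσ⟩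

end Pool.Agent.FL.H8
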