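import Pool.Agent.Helper93_FL.BStmts

/-!
# B2: product measures and resampling of coordinates
-/

open MeasureTheory Set

namespace Pool.Agent.FL.H8

theorem Lz_pos (m : ℕ) : 0 < Lz m := Nat.factorial_pos _

instance neZero_Lz (m : ℕ) : NeZero (Lz m) := ⟨(Lz_pos m).ne'⟩

instance unifM_prob (n : ℕ) [NeZero n] : IsProbabilityMeasure (unifM n) := by
  constructor
  unfold unifM
  rw [Measure.smul_apply, Measure.count_apply MeasurableSet.univ]
  simp only [smul_eq_mul, Set.encard_univ, ENat.card_eq_coe_fintype_card, Fintype.card_fin]
  have hn : n ≠ 0 := NeZero.ne n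
  exact ENNReal.inv_mul_cancel (by simpa using hn) (by simp)

theorem unifM_singleton (n : ℕ) (a : Fin n) : unifM n {a} = (n : ENNReal)⁻¹ := by
  unfold unifM
  rw [Measure.smul_apply, Measure.count_singleton]
  simp

instance mU_prob : IsProbabilityMeasure mU := by
  unfold mU
  infer_instance

instance mP_prob (I : Type) : IsProbabilityMeasure (mP I) := by
  unfold mP
  infer_instance

theorem measurable_glueR {I : Type} (J : Set I) :
    Measurable (fun x : (I → Rd) × (I → Rd) => glueR J x.1 x.2) := by
  classical
  refine measurable_pi_iff.2 fun i => ?_
  unfold glueR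
  by_cases h : i ∈ J
  · simp only [h, if_true]
    exact (measurable_pi_apply i).comp measurable_fst
  · simp only [h, if_false]
    exact (measurable_pi_apply i).comp measurable_snd

theorem measurable_update {I : Type} [DecidableEq I] (j : I) :
    Measurable (fun x : (I → Rd) × Rd => Function.update x.1 j x.2) := by
  refine measurable_pi_iff.2 fun i => ?_
  by_cases h : i = j
  · subst h
    simp only [Function.update_self]
    exact measurable_snd
  · simp only [Function.update_of_ne h]
    exact (measurable_pi_apply i).comp measurable_fst

theorem prod : ProdStmt := by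
  classical
  refine ⟨inferInstance, fun I => ⟨inferInstance, fun J => ?_, ?_⟩⟩
  · unfold mP
    apply Measure.eq_infinitePi
    intro s t ht
    rw [Measure.map_apply (measurable_glueR J)
      (MeasurableSet.pi s.countable_toSet (fun i _ => ht i))]
    have h1 : (fun x : (I → Rd) × (I → Rd) => glueR J x.1 x.2) ⁻¹' (Set.pi s t) =
        (Set.pi ((s.filter (fun i => i ∈ J) : Finset I) : Set I) t) ×ˢ
        (Set.pi ((s.filter (fun i => ¬ i ∈ J) : Finset I) : Set I) t) := by
      ext x
      simp only [glueR, Set.mem_preimage, Set.mem_pi, Set.mem_prod, Finset.mem_coe,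
        Finset.mem_filter]
      constructor
      · intro h
        refine ⟨fun i hi => ?_, fun i hi => ?_⟩
        · have := h i hi.1
          rwa [if_pos hi.2] at this
        · have := h i hi.1
          rwa [if_neg hi.2] at this
      · rintro ⟨h1, h2⟩ i hi
        split_ifs with h
        · exact h1 i ⟨hi, h⟩
        · exact h2 i ⟨hi, h⟩
    rw [h1, Measure.prod_prod, Measure.infinitePi_pi _ (fun i _ => ht i),
      Measure.infinitePi_pi _ (fun i _ => ht i), Finset.prod_filter_mul_prod_filter_not]
  · intro _ j
    unfold mP
    apply Measure.eq_infinitePi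
    intro s t ht
    rw [Measure.map_apply (measurable_update j)
      (MeasurableSet.pi s.countable_toSet (fun i _ => ht i))]
    by_cases hj : j ∈ s
    · have h1 : (fun x : (I → Rd) × Rd => Function.update x.1 j x.2) ⁻¹' (Set.pi s t) =
          (Set.pi ((s.erase j : Finset I) : Set I) t) ×ˢ t j := by
        ext x
        simp only [Set.mem_preimage, Set.mem_pi, Set.mem_prod, Finset.mem_coe, Finset.mem_erase]
        constructor
        · intro h
          refine ⟨fun i hi => ?_, ?_⟩
          · have := h i hi.2
            rwa [Function.update_of_ne hi.1] at this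
          · have := h j hj
            rwa [Function.update_self] at this
        · rintro ⟨h1, h2⟩ i hi
          by_cases h : i = j
          · subst h
            rwa [Function.update_self]
          · rw [Function.update_of_ne h]
            exact h1 i ⟨h, hi⟩
      rw [h1, Measure.prod_prod, Measure.infinitePi_pi _ (fun i _ => ht i),
        Finset.prod_erase_mul _ _ hj]
    · have h1 : (fun x : (I → Rd) × Rd => Function.update x.1 j x.2) ⁻¹' (Set.pi s t) =
          (Set.pi (s : Set I) t) ×ˢ Set.univ := by
        ext x
        simp only [Set.mem_preimage, Set.mem_pi, Set.mem_prod, Finset.mem_coe, Set.mem_univ,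
          and_true]
        refine forall_congr' fun i => forall_congr' fun hi => ?_
        have h : i ≠ j := by rintro rfl; exact hj hi
        rw [Function.update_of_ne h]
      rw [h1, Measure.prod_prod, Measure.infinitePi_pi _ (fun i _ => ht i), measure_univ, mul_one]

end Pool.Agent.FL.H8
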