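import Pool.Agent.Helper8_FL.B1

/-!
# B4: thinning of one tree
-/

open MeasureTheory Set Filter

attribute [local irreducible] Pool.Agent.FL.phi Pool.Agent.FL.Lz Pool.Agent.FL.sz
  Pool.Agent.FL.mU Pool.Agent.FL.pre

namespace Pool.Agent.FL.H8.Thin

/-- The set of randomness passing through `s`. -/
def NS (T : Set Node) (s : Node) : Set Rd := {w | pre (phi T w) s.length = s}

/-- The set of randomness passing through `s` and leaving `H`. -/
def QS (T H : Set Node) (s : Node) : Set Rd :=
  {w | pre (phi T w) s.length = s ∧ ∃ m, pre (phi T w) m ∉ H}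

noncomputable def N (T : Set Node) (s : Node) : ℝ := (mU (NS T s)).toReal

noncomputable def Q (T H : Set Node) (s : Node) : ℝ := (mU (QS T H s)).toReal

/-- Small defect at `s`. -/
def small (T H : Set Node) (s : Node) : Prop :=
  2 * ((s.length : ℝ) + 2) * Q T H s < ((s.length : ℝ) + 1) * N T s

def cand (T H : Set Node) (s : Node) : Prop := s ∈ T ∧ small T H s

def first (T H : Set Node) (s : Node) : Prop :=
  cand T H s ∧ ∀ s' : Node, Encodable.encode s' < Encodable.encode s → ¬ cand T H s'

def R (T H : Set Node) (s σ : Node) : Prop :=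
  σ ∈ T ∧ (σ <+: s ∨ (s <+: σ ∧ ∀ τ, s <+: τ → τ <+: σ → small T H τ))

def G (T H : Set Node) : Set Node := {σ | ∃ s, first T H s ∧ R T H s σ}

/-! ### Measurability -/

theorem meas_phi (T : Set Node) : Measurable (phi T) := by
  have h : Measurable (fun w : Rd => ((T, w) : Set Node × Rd)) := measurable_prodMk_left
  exact measurable_phi.comp h

theorem meas_phi2 : Measurable (fun x : (Set Node × Set Node) × Rd => phi x.1.1 x.2) := by
  have h : Measurable (fun x : (Set Node × Set Node) × Rd => ((x.1.1, x.2) : Set Node × Rd)) :=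
    (measurable_fst.comp measurable_fst).prodMk measurable_snd
  exact measurable_phi.comp h

theorem measurableSet_NS (T : Set Node) (s : Node) : MeasurableSet (NS T s) :=
  meas_phi T (measurableSet_pre_eq s.length s)

theorem measurableSet_pre_phi_mem (T H : Set Node) (m : ℕ) :
    MeasurableSet {w | pre (phi T w) m ∈ H} :=
  measurableSet_pre_mem (meas_phi T) measurable_const m

theorem measurableSet_QS (T H : Set Node) (s : Node) : MeasurableSet (QS T H s) := by
  have : QS T H s = NS T s ∩ ⋃ m, {w | pre (phi T w) m ∈ H}ᶜ := by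
    ext w
    simp [QS, NS]
  rw [this]
  exact (measurableSet_NS T s).inter
    (MeasurableSet.iUnion fun m => (measurableSet_pre_phi_mem T H m).compl)

theorem measurable_N (s : Node) : Measurable (fun x : Set Node × Set Node => N x.1 s) := by
  have h1 : MeasurableSet {x : (Set Node × Set Node) × Rd |
      pre (phi x.1.1 x.2) s.length = s} := by
    exact meas_phi2 (measurableSet_pre_eq s.length s)
  exact (measurable_measure_prodMk_left (ν := mU) h1).ennreal_toReal

theorem measurable_Q (s : Node) : Measurable (fun x : Set Node × Set Node => Q x.1 x.2 s) := by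
  have h1 : MeasurableSet {x : (Set Node × Set Node) × Rd |
      pre (phi x.1.1 x.2) s.length = s ∧ ∃ m, pre (phi x.1.1 x.2) m ∉ x.1.2} := by
    have h2 := meas_phi2
    have : {x : (Set Node × Set Node) × Rd |
        pre (phi x.1.1 x.2) s.length = s ∧ ∃ m, pre (phi x.1.1 x.2) m ∉ x.1.2} =
        {x : (Set Node × Set Node) × Rd | pre (phi x.1.1 x.2) s.length = s} ∩
        ⋃ m, {x : (Set Node × Set Node) × Rd | pre (phi x.1.1 x.2) m ∈ x.1.2}ᶜ := by
      ext x
      simp
    rw [this]
    exact (h2 (measurableSet_pre_eq s.length s)).inter (MeasurableSet.iUnion fun m =>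
      (measurableSet_pre_mem h2 (measurable_snd.comp measurable_fst) m).compl)
  exact (measurable_measure_prodMk_left (ν := mU) h1).ennreal_toReal

theorem meas_small (s : Node) : MeasurableSet {x : Set Node × Set Node | small x.1 x.2 s} :=
  measurableSet_lt ((measurable_Q s).const_mul _) ((measurable_N s).const_mul _)

theorem meas_mem (s : Node) : MeasurableSet {x : Set Node × Set Node | s ∈ x.1} :=
  (measurableSet_mem_node s).preimage measurable_fst

theorem meas_cand (s : Node) : MeasurableSet {x : Set Node × Set Node | cand x.1 x.2 s} :=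
  (meas_mem s).inter (meas_small s)

theorem meas_first (s : Node) : MeasurableSet {x : Set Node × Set Node | first x.1 x.2 s} := by
  have : {x : Set Node × Set Node | first x.1 x.2 s} =
      {x : Set Node × Set Node | cand x.1 x.2 s} ∩
      ⋂ s' : {s' : Node // Encodable.encode s' < Encodable.encode s},
        {x : Set Node × Set Node | cand x.1 x.2 s'.1}ᶜ := by
    ext x
    simp [first]
  rw [this]
  exact (meas_cand s).inter (MeasurableSet.iInter fun s' => (meas_cand s'.1).compl)

theorem meas_R (s σ : Node) : MeasurableSet {x : Set Node × Set Node | R x.1 x.2 s σ} := by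
  have : {x : Set Node × Set Node | R x.1 x.2 s σ} =
      {x : Set Node × Set Node | σ ∈ x.1} ∩ ({_x : Set Node × Set Node | σ <+: s} ∪
      ({_x : Set Node × Set Node | s <+: σ} ∩
      ⋂ τ : {τ : Node // s <+: τ ∧ τ <+: σ}, {x : Set Node × Set Node | small x.1 x.2 τ.1})) := by
    ext x
    simp [R]
  rw [this]
  exact (meas_mem σ).inter ((MeasurableSet.const _).union ((MeasurableSet.const _).inter
    (MeasurableSet.iInter fun τ => meas_small τ.1)))

theorem meas_G : Measurable (fun x : Set Node × Set Node => G x.1 x.2) := by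
  rw [measurable_set_iff]
  intro σ
  rw [← measurableSet_setOfPred]
  have : {x : Set Node × Set Node | σ ∈ G x.1 x.2} =
      ⋃ s : Node, {x : Set Node × Set Node | first x.1 x.2 s} ∩
        {x : Set Node × Set Node | R x.1 x.2 s σ} := by
    ext x
    simp [G]
  rw [this]
  exact MeasurableSet.iUnion fun s => (meas_first s).inter (meas_R s σ)

/-! ### Existence of a node with small defect -/

theorem split (T : Set Node) (n : ℕ) (B : Set Rd) (hB : MeasurableSet B) :
    mU B = ∑' s : Node, mU (B ∩ {w | pre (phi T w) n = s}) := by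
  rw [← measure_iUnion]
  · congr 1
    ext w
    simp
  · intro s s' hss
    refine Set.disjoint_left.2 ?_
    rintro w ⟨_, h1⟩ ⟨_, h2⟩
    exact hss (h1.symm.trans h2)
  · intro s
    exact hB.inter (meas_phi T (measurableSet_pre_eq n s))

theorem exists_cand {T H : Set Node} (hT : Good T)
    (hpos : mU {w | ∀ m, pre (phi T w) m ∈ H} ≠ 0) : ∃ s, cand T H s := by
  by_contra hno
  push Not at hno
  have hno' : ∀ s ∈ T, mU (NS T s) ≤ 4 * mU (QS T H s) := by
    intro s hs
    have h1 : ¬ small T H s := fun h => hno s ⟨hs, h⟩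
    unfold small at h1
    push Not at h1
    have hQ0 : 0 ≤ Q T H s := ENNReal.toReal_nonneg
    have hN0 : 0 ≤ N T s := ENNReal.toReal_nonneg
    have hl : (0 : ℝ) ≤ s.length := Nat.cast_nonneg _
    have h2 : N T s ≤ 4 * Q T H s := by
      nlinarith [mul_nonneg hl hQ0, mul_nonneg hl hN0]
    have h3 : (4 * mU (QS T H s)).toReal = 4 * Q T H s := by
      rw [ENNReal.toReal_mul]; rfl
    rw [← ENNReal.toReal_le_toReal (measure_ne_top _ _)
      (ENNReal.mul_ne_top (by simp) (measure_ne_top _ _)), h3]
    exact h2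
  let A : ℕ → Set Rd := fun n => {w | ∀ m ≤ n, pre (phi T w) m ∈ H}
  let Ai : Set Rd := {w | ∀ m, pre (phi T w) m ∈ H}
  have hA : ∀ n, MeasurableSet (A n) := by
    intro n
    have : A n = ⋂ m : {m : ℕ // m ≤ n}, {w | pre (phi T w) m.1 ∈ H} := by
      ext w
      simp [A]
    rw [this]
    exact MeasurableSet.iInter fun m => measurableSet_pre_phi_mem T H m.1
  have hAi : MeasurableSet Ai := by
    have : Ai = ⋂ m : ℕ, {w | pre (phi T w) m ∈ H} := by
      ext w
      simp [Ai]
    rw [this]
    exact MeasurableSet.iInter fun m => measurableSet_pre_phi_mem T H m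
  have hsub : ∀ n, Ai ⊆ A n := fun n w hw m _ => hw m
  have key : ∀ n, mU (A n) ≤ 4 * mU (A n \ Ai) := by
    intro n
    rw [split T n (A n) (hA n), split T n (A n \ Ai) ((hA n).diff hAi), ← ENNReal.tsum_mul_left]
    refine ENNReal.tsum_le_tsum fun s => ?_
    by_cases he : (A n ∩ {w | pre (phi T w) n = s}).Nonempty
    · obtain ⟨w0, hw0, hs0⟩ := he
      have hs0' : pre (phi T w0) n = s := hs0
      have hlen : s.length = n := by rw [← hs0', length_pre]
      have hsT : s ∈ T := by
        rw [← hs0']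
        exact phi_mem hT w0 n
      have h1 : A n ∩ {w | pre (phi T w) n = s} ⊆ NS T s := by
        rintro w ⟨_, hw⟩
        change pre (phi T w) s.length = s
        rw [hlen]; exact hw
      have h2 : QS T H s ⊆ (A n \ Ai) ∩ {w | pre (phi T w) n = s} := by
        rintro w ⟨hw, m, hm⟩
        rw [hlen] at hw
        refine ⟨⟨fun m' hm' => ?_, fun h => hm (h m)⟩, hw⟩
        have h3 := hw0 m' hm'
        rw [← take_pre _ hm', hs0'] at h3
        rw [← take_pre _ hm', hw]
        exact h3
      exact (measure_mono h1).trans ((hno' s hsT).trans (mul_le_mul_right (measure_mono h2) 4))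
    · rw [Set.not_nonempty_iff_eq_empty.1 he]
      simp
  have hanti : Antitone (fun n => A n \ Ai) := by
    intro n n' hnn
    refine Set.sdiff_subset_sdiff_left ?_
    intro w hw m hm
    exact hw m (hm.trans hnn)
  have hlim := tendsto_measure_iInter_atTop (μ := mU) (s := fun n => A n \ Ai)
    (fun n => ((hA n).diff hAi).nullMeasurableSet) hanti ⟨0, measure_ne_top _ _⟩
  have hempty : ⋂ n, (A n \ Ai) = ∅ := by
    rw [Set.eq_empty_iff_forall_notMem]
    intro w hw
    rw [Set.mem_iInter] at hw
    exact (hw 0).2 fun m => (hw m).1 m le_rfl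
  rw [hempty, measure_empty] at hlim
  have hlim4 := ENNReal.Tendsto.const_mul (a := 4) hlim (Or.inr (by simp))
  rw [mul_zero] at hlim4
  have hle : mU Ai ≤ 0 := by
    refine ge_of_tendsto' hlim4 fun n => ?_
    exact (measure_mono (hsub n)).trans (key n)
  exact hpos (le_antisymm hle bot_le)

theorem exists_first {T H : Set Node} (h : ∃ s, cand T H s) : ∃ s, first T H s := by
  classical
  have h1 : ∃ n, ∃ s, cand T H s ∧ Encodable.encode s = n := by
    obtain ⟨s, hs⟩ := h
    exact ⟨_, s, hs, rfl⟩
  obtain ⟨s, hs, he⟩ := Nat.find_spec h1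
  refine ⟨s, hs, fun s' hs' hc => ?_⟩
  rw [he] at hs'
  exact Nat.find_min h1 hs' ⟨s', hc, rfl⟩

theorem first_unique {T H : Set Node} {s s' : Node} (h : first T H s) (h' : first T H s') :
    s = s' := by
  rcases lt_trichotomy (Encodable.encode s) (Encodable.encode s') with h1 | h1 | h1
  · exact (h'.2 s h1 h.1).elim
  · exact Encodable.encode_injective h1
  · exact (h.2 s' h1 h'.1).elim

/-! ### Markov -/

theorem N_append {T : Set Node} (hT : Good T) {σ : Node} {a : ℕ} (hσ : σ ++ [a] ∈ T) :
    N T (σ ++ [a]) = N T σ * ((suc T σ).card : ℝ)⁻¹ := by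
  unfold N NS
  rw [mU_pre hT hσ, mU_pre hT (hT.down _ _ hσ)]
  rw [List.length_append, List.length_singleton, Finset.prod_range_succ, ENNReal.toReal_mul]
  congr 1
  · congr 1
    refine Finset.prod_congr rfl fun i hi => ?_
    rw [List.take_append_of_le_length (Finset.mem_range.1 hi).le]
  · rw [List.take_append_of_le_length le_rfl, List.take_length, ENNReal.toReal_inv]
    simp

theorem N_pos {T : Set Node} (hT : Good T) {σ : Node} (hσ : σ ∈ T) : 0 < N T σ := by
  unfold N NS
  rw [mU_pre hT hσ, ENNReal.toReal_prod]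
  refine Finset.prod_pos fun i hi => ?_
  rw [ENNReal.toReal_inv]
  simp only [ENNReal.toReal_natCast, inv_pos, Nat.cast_pos]
  exact card_suc_pos hT (hT.mem_of_isPrefix (List.take_prefix _ _) hσ)

theorem sum_Q_le {T H : Set Node} (σ : Node) (B : Finset ℕ) :
    ∑ a ∈ B, Q T H (σ ++ [a]) ≤ Q T H σ := by
  have h1 : ∑ a ∈ B, Q T H (σ ++ [a]) = mU.real (⋃ a ∈ B, QS T H (σ ++ [a])) := by
    rw [measureReal_biUnion_finset]
    · rfl
    · intro a _ b _ hab
      refine Set.disjoint_left.2 ?_
      rintro w ⟨h1, _⟩ ⟨h2, _⟩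
      apply hab
      simp only [List.length_append, List.length_singleton] at h1 h2
      have h3 := h1.symm.trans h2
      have h4 := List.append_cancel_left h3
      simpa using h4
    · intro a _
      exact measurableSet_QS T H _
  rw [h1]
  refine measureReal_mono ?_
  refine Set.iUnion₂_subset fun a _ => ?_
  rintro w ⟨h1, h2⟩
  refine ⟨?_, h2⟩
  have h3 : σ.length ≤ (σ ++ [a]).length := by simp
  rw [← take_pre _ h3, h1]
  simp

open Classical in
theorem markov {T H : Set Node} (hT : Good T) {σ : Node} (hσ : σ ∈ T) (hs : small T H σ) :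
    (suc T σ).card < ((suc T σ).filter (fun a => small T H (σ ++ [a]))).card *
      (σ.length + 2) ^ 2 := by
  set A := suc T σ with hA
  set B := A.filter (fun a => ¬ small T H (σ ++ [a])) with hB
  have hcard : (A.filter (fun a => small T H (σ ++ [a]))).card + B.card = A.card :=
    Finset.card_filter_add_card_filter_not _
  have hc0 : 0 < A.card := card_suc_pos hT hσ
  have hc : (0 : ℝ) < A.card := by exact_mod_cast hc0
  set m : ℝ := (σ.length : ℝ) with hm
  have hm0 : 0 ≤ m := Nat.cast_nonneg _
  have hN := N_pos hT hσ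
  have hbad : ∀ a ∈ B, (m + 2) * (N T σ * (A.card : ℝ)⁻¹) ≤ 2 * (m + 3) * Q T H (σ ++ [a]) := by
    intro a ha
    have h1 := (Finset.mem_filter.1 ha).2
    have h2 := hT.mem_suc.1 (Finset.mem_filter.1 ha).1
    unfold small at h1
    push Not at h1
    rw [N_append hT h2] at h1
    simp only [List.length_append, List.length_singleton, Nat.cast_add, Nat.cast_one] at h1
    have e1 : m + 1 + 1 = m + 2 := by ring
    have e2 : m + 1 + 2 = m + 3 := by ring
    rw [← hm, e1, e2] at h1
    exact h1
  have hsum : (B.card : ℝ) * ((m + 2) * (N T σ * (A.card : ℝ)⁻¹)) ≤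
      2 * (m + 3) * ∑ a ∈ B, Q T H (σ ++ [a]) := by
    rw [Finset.mul_sum, ← nsmul_eq_mul]
    exact Finset.card_nsmul_le_sum _ _ _ hbad
  have hQ := sum_Q_le (T := T) (H := H) σ B
  unfold small at hs
  rw [← hm] at hs
  set q := Q T H σ with hq
  set n := N T σ with hn
  set b : ℝ := (B.card : ℝ) with hb
  set c : ℝ := (A.card : ℝ) with hcdef
  -- b (m+2) n / c ≤ 2 (m+3) q
  have h1 : b * ((m + 2) * (n * c⁻¹)) ≤ 2 * (m + 3) * q := by
    refine hsum.trans ?_
    exact mul_le_mul_of_nonneg_left hQ (by linarith)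
  have h2 : b * (m + 2) * n ≤ 2 * (m + 3) * q * c := by
    have h3 := mul_le_mul_of_nonneg_right h1 hc.le
    have h4 : b * ((m + 2) * (n * c⁻¹)) * c = b * (m + 2) * n := by
      field_simp
    rwa [h4] at h3
  have h3 : b * (m + 2) ^ 2 * n < (m + 3) * (m + 1) * c * n := by
    have h5 : b * (m + 2) ^ 2 * n ≤ (2 * (m + 2) * q) * ((m + 3) * c) := by
      have := mul_le_mul_of_nonneg_right h2 (by linarith : (0 : ℝ) ≤ m + 2)
      linarith [this]
    have h6 : (2 * (m + 2) * q) * ((m + 3) * c) < ((m + 1) * n) * ((m + 3) * c) :=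
      mul_lt_mul_of_pos_right hs (by positivity)
    linarith [h5, h6]
  have h4 : b * (m + 2) ^ 2 < (m + 3) * (m + 1) * c := lt_of_mul_lt_mul_right h3 hN.le
  have h5 : b * (m + 2) ^ 2 + c < (m + 2) ^ 2 * c := by nlinarith [h4]
  have h6 : B.card * (σ.length + 2) ^ 2 + A.card < (σ.length + 2) ^ 2 * A.card := by
    have : ((B.card * (σ.length + 2) ^ 2 + A.card : ℕ) : ℝ) <
        (((σ.length + 2) ^ 2 * A.card : ℕ) : ℝ) := by
      push_cast
      exact h5
    exact_mod_cast this
  have h7 : (σ.length + 2) ^ 2 * A.card =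
      (A.filter (fun a => small T H (σ ++ [a]))).card * (σ.length + 2) ^ 2 +
        B.card * (σ.length + 2) ^ 2 := by
    rw [← hcard]; ring
  omega

/-! ### The thinned tree -/

theorem mem_G {T H : Set Node} {s : Node} (hs : first T H s) {σ : Node} :
    σ ∈ G T H ↔ R T H s σ := by
  constructor
  · rintro ⟨s', h1, h2⟩
    rwa [first_unique hs h1]
  · intro h
    exact ⟨s, hs, h⟩

theorem filter_subset {T H : Set Node} {s : Node} (hs : first T H s) {σ : Node}
    (hsσ : s <+: σ) (hall : ∀ τ, s <+: τ → τ <+: σ → small T H τ) {a : ℕ}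
    (ha : a ∈ suc T σ) (hsm : small T H (σ ++ [a])) : a ∈ suc (G T H) σ := by
  rw [mem_suc, mem_G hs]
  refine ⟨(mem_suc.1 ha).1, (mem_suc.1 ha).2, Or.inr ⟨hsσ.trans (List.prefix_append _ _), ?_⟩⟩
  intro τ h1 h2
  rcases List.prefix_concat_iff.1 h2 with h3 | h3
  · rw [h3]; exact hsm
  · exact hall τ h1 h3

theorem card_G {T H : Set Node} (hT : Good T) {s : Node} (hs : first T H s) {σ : Node}
    (hσ : σ ∈ T) (hsσ : s <+: σ) (hall : ∀ τ, s <+: τ → τ <+: σ → small T H τ) :
    (suc T σ).card < (suc (G T H) σ).card * (σ.length + 2) ^ 2 := by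
  classical
  refine (markov hT hσ (hall σ hsσ List.prefix_rfl)).trans_le ?_
  refine Nat.mul_le_mul_right _ (Finset.card_le_card ?_)
  intro a ha
  rw [Finset.mem_filter] at ha
  exact filter_subset hs hsσ hall ha.1 ha.2

theorem case_of_mem {T H : Set Node} {s : Node} (hs : first T H s) {σ : Node}
    (hσ : σ ∈ G T H) : (∃ a, σ ++ [a] <+: s) ∨
      (s <+: σ ∧ ∀ τ, s <+: τ → τ <+: σ → small T H τ) := by
  rw [mem_G hs] at hσ
  obtain ⟨_, h | h⟩ := hσ
  · obtain ⟨l, rfl⟩ := h
    cases l with
    | nil =>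
      refine Or.inr ⟨by simp, fun τ h1 h2 => ?_⟩
      rw [List.append_nil] at h1 hs
      have h3 : τ = σ := h2.eq_of_length_le h1.length_le
      rw [h3]
      exact hs.1.2
    | cons a l =>
      refine Or.inl ⟨a, l, by simp⟩
  · exact Or.inr h

theorem good_G {T H : Set Node} (hT : Good T) {s : Node} (hs : first T H s) : Good (G T H) where
  nil := (mem_G hs).2 ⟨hT.nil, Or.inl List.nil_prefix⟩
  down := by
    intro σ a h
    rw [mem_G hs] at h ⊢
    obtain ⟨h1, h2⟩ := h
    refine ⟨hT.down _ _ h1, ?_⟩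
    rcases h2 with h2 | ⟨h2, h3⟩
    · exact Or.inl ((List.prefix_append _ _).trans h2)
    · rcases List.prefix_concat_iff.1 h2 with h4 | h4
      · left
        rw [h4]
        exact List.prefix_append _ _
      · exact Or.inr ⟨h4, fun τ h5 h6 => h3 τ h5 (h6.trans (List.prefix_append _ _))⟩
  bdd := by
    intro σ a h
    rw [mem_G hs] at h
    exact hT.bdd _ _ h.1
  ext := by
    intro σ hσ
    rcases case_of_mem hs hσ with ⟨a, ha⟩ | ⟨h1, h2⟩
    · refine ⟨a, ?_⟩
      have h3 : σ ++ [a] ∈ T := hT.mem_of_isPrefix ha hs.1.1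
      rw [mem_suc, mem_G hs]
      exact ⟨hT.bdd _ _ h3, h3, Or.inl ha⟩
    · have h3 := card_G hT hs ((mem_G hs).1 hσ).1 h1 h2
      rw [← Finset.card_pos]
      by_contra h4
      have h5 : (suc (G T H) σ).card = 0 := by omega
      rw [h5] at h3
      omega
  norm := by
    intro k
    obtain ⟨m, hm⟩ := hT.norm (k + 2)
    refine ⟨max m s.length, fun σ hσ hl => ?_⟩
    have hl1 : m ≤ σ.length := (le_max_left _ _).trans hl
    have hl2 : s.length ≤ σ.length := (le_max_right _ _).trans hl
    rcases case_of_mem hs hσ with ⟨a, ha⟩ | ⟨h1, h2⟩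
    · have h3 := ha.length_le
      simp at h3
      omega
    · have hσT := ((mem_G hs).1 hσ).1
      have h3 := card_G hT hs hσT h1 h2
      have h4 := hm σ hσT hl1
      rw [pow_add] at h4
      exact (lt_of_mul_lt_mul_right (h4.trans_lt h3) (Nat.zero_le _)).le

theorem mem_H {T H : Set Node} (hT : Good T) {s : Node} (hs : first T H s) {t : Br}
    (ht : t ∈ body (G T H)) (m : ℕ) : pre t m ∈ H := by
  set M := max m s.length with hM
  have h0 : (pre t M).length = M := length_pre t M
  have hσ := ht M
  have hsm : small T H (pre t M) := by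
    rcases case_of_mem hs hσ with ⟨a, ha⟩ | ⟨h1, h2⟩
    · have h3 := ha.length_le
      rw [List.length_append, h0] at h3
      simp at h3
      omega
    · exact h2 _ h1 List.prefix_rfl
  have hσT : pre t M ∈ T := ((mem_G hs).1 hσ).1
  have hex : ∃ w, pre (phi T w) (pre t M).length = pre t M ∧ ∀ m, pre (phi T w) m ∈ H := by
    by_contra hno
    push Not at hno
    have h1 : QS T H (pre t M) = NS T (pre t M) := by
      ext w
      constructor
      · exact fun h => h.1
      · intro h
        exact ⟨h, hno w h⟩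
    unfold small at hsm
    have h2 : Q T H (pre t M) = N T (pre t M) := by unfold Q N; rw [h1]
    rw [h2] at hsm
    have h3 := N_pos hT hσT
    have h4 : (0 : ℝ) ≤ (pre t M).length := Nat.cast_nonneg _
    nlinarith
  obtain ⟨w, hw1, hw2⟩ := hex
  rw [h0] at hw1
  have h5 : m ≤ M := le_max_left _ _
  rw [← take_pre t h5, ← hw1, take_pre _ h5]
  exact hw2 m

end Pool.Agent.FL.H8.Thin

namespace Pool.Agent.FL.H8

theorem thin : ThinStmt := by
  refine ⟨Thin.G, Thin.meas_G, fun T H hT hpos => ?_⟩
  obtain ⟨s, hs⟩ := Thin.exists_first (Thin.exists_cand hT hpos)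
  exact ⟨Thin.good_G hT hs, fun σ hσ => ((Thin.mem_G hs).1 hσ).1,
    fun t ht m => Thin.mem_H hT hs ht m⟩

end Pool.Agent.FL.H8
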