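import Pool.Agent.Helper8_FL.B1

/-!
# B6: the random point of a condition
-/

open MeasureTheory Set

namespace Pool.Agent.FL.H8

variable {I : Type} [LinearOrder I] [WellFoundedLT I]

theorem X_eq (p : Cond I) (u : I → Rd) (i : I) : p.X u i = phi (p.T i (p.X u)) (u i) := by
  classical
  have h1 := (wellFounded_lt (α := I)).fix_eq (fun i ih =>
    phi (p.T i (fun j => if h : j < i then ih j h else fun m => ⟨0, sz_pos m⟩)) (u i)) i
  change p.X u i = _ at h1
  rw [h1]
  congr 1
  apply p.T_congr
  intro j hj
  rw [dif_pos hj]
  rfl

theorem X_stmt (h1 : PhiStmt) : XStmt := by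
  classical
  intro I _ _ p
  refine ⟨X_eq p, ?_, ?_, ?_⟩
  · intro u i
    rw [X_eq p u i]
    exact h1.2.1 _ (p.good i _) _
  · intro J hJ u u' h i
    induction i using WellFoundedLT.induction with
    | _ i ih =>
      intro hi
      rw [X_eq, X_eq p u' i, h i hi]
      congr 1
      apply p.T_congr
      intro j hj
      exact ih j hj (hJ hj.le hi)
  · refine measurable_pi_iff.2 fun i => ?_
    induction i using WellFoundedLT.induction with
    | _ i ih =>
      have hg : Measurable (fun u : I → Rd => (fun j => if j < i then p.X u j else
          fun m => ⟨0, sz_pos m⟩ : Pt I)) := by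
        refine measurable_pi_iff.2 fun j => ?_
        by_cases hj : j < i
        · simp only [hj, if_true]
          exact ih j hj
        · simp only [hj, if_false]
          exact measurable_const
      have h2 : (fun u => p.X u i) = (fun x : Set Node × Rd => phi x.1 x.2) ∘
          (fun u : I → Rd => (p.T i (fun j => if j < i then p.X u j else
          fun m => ⟨0, sz_pos m⟩ : Pt I), u i)) := by
        funext u
        rw [X_eq p u i]
        simp only [Function.comp]
        congr 1
        apply p.T_congr
        intro j hj
        rw [if_pos hj]
      rw [h2]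
      exact h1.2.2.2.1.comp (((p.meas i).comp hg).prodMk (measurable_pi_apply i))

end Pool.Agent.FL.H8
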